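import Mathlib
import Pool.Agent.R736.LOT.B

/-!
# Optimality of the group request (problem MP_9c491c_pr, Q1): TRUE
-/

set_option autoImplicit false

namespace Pool.Agent.Results.MP_9c491c_pr.GroupRequestOptimal

open Finset MeasureTheory ProbabilityTheory Filter Topology

/-- `X 0, ..., X (m-1)` are independent, each with `P(X i > s) = e^(-s)` for `s ≥ 0`. -/
structure IIDExp {Ω : Type} [MeasurableSpace Ω] (P : Measure Ω) {m : ℕ} (X : Fin m → Ω → ℝ) :
    Prop where
  meas : ∀ i, Measurable (X i)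
  indep : iIndepFun X P
  tail : ∀ i, ∀ s : ℝ, 0 ≤ s → P.real {ω | s < X i ω} = Real.exp (-s)

/-- `Phi P X a t = P(∑ i, a i * 1[a i * X i < t] ≥ m)`. -/
noncomputable def Phi {Ω : Type} [MeasurableSpace Ω] (P : Measure Ω) {m : ℕ} (X : Fin m → Ω → ℝ)
    (a : Fin m → ℝ) (t : ℝ) : ℝ :=
  P.real {ω | (m : ℝ) ≤ ∑ i, if a i * X i ω < t then a i else 0}

lemma prob_lt {Ω : Type} [MeasurableSpace Ω] (P : Measure Ω) [IsProbabilityMeasure P] {m : ℕ}
    (X : Fin m → Ω → ℝ) (h : IIDExp P X) (i : Fin m) (u : ℝ) (hu : 0 < u) :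
    P.real (X i ⁻¹' Set.Ici u) = Real.exp (-u) := by
  apply le_antisymm
  · have h1 : ∀ᶠ s in 𝓝[<] u, P.real (X i ⁻¹' Set.Ici u) ≤ Real.exp (-s) := by
      have : Set.Ioo (0 : ℝ) u ∈ 𝓝[<] u := Ioo_mem_nhdsLT hu
      filter_upwards [this] with s hs
      rw [← h.tail i s hs.1.le]
      refine measureReal_mono ?_ (measure_ne_top _ _)
      intro ω hω
      exact lt_of_lt_of_le hs.2 hω
    refine ge_of_tendsto ?_ h1
    exact ((Real.continuous_exp.comp continuous_neg).tendsto u).mono_left nhdsWithin_le_nhds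
  · rw [← h.tail i u hu.le]
    refine measureReal_mono ?_ (measure_ne_top _ _)
    intro ω hω
    exact le_of_lt (show u < X i ω from hω)

lemma prob_ge {Ω : Type} [MeasurableSpace Ω] (P : Measure Ω) [IsProbabilityMeasure P] {m : ℕ}
    (X : Fin m → Ω → ℝ) (h : IIDExp P X) (i : Fin m) (u : ℝ) (hu : 0 < u) :
    P.real (X i ⁻¹' Set.Iio u) = 1 - Real.exp (-u) := by
  have h1 : X i ⁻¹' Set.Iio u = (X i ⁻¹' Set.Ici u)ᶜ := by
    ext ω
    simp
  rw [h1, measureReal_compl (h.meas i measurableSet_Ici), prob_lt P X h i u hu]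
  simp

/-- the box event -/
lemma prob_box {Ω : Type} [MeasurableSpace Ω] (P : Measure Ω) [IsProbabilityMeasure P] {m : ℕ}
    (X : Fin m → Ω → ℝ) (h : IIDExp P X) (a : Fin m → ℝ) (ha : ∀ i, 0 < a i) (t : ℝ) (ht : 0 < t)
    (T : Finset (Fin m)) :
    P.real (⋂ i ∈ (univ : Finset (Fin m)), X i ⁻¹' (if i ∈ T then Set.Iio (t / a i)
      else Set.Ici (t / a i))) =
      Pool.Agent.W890.SF.Wt (fun i => 1 - Real.exp (-(t / a i))) univ T := by
  rw [measureReal_def, h.indep.measure_inter_preimage_eq_mul univ (by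
    intro i _
    split_ifs
    · exact measurableSet_Iio
    · exact measurableSet_Ici), ENNReal.toReal_prod]
  have e : ∀ i, (P (X i ⁻¹' (if i ∈ T then Set.Iio (t / a i) else Set.Ici (t / a i)))).toReal =
      if i ∈ T then 1 - Real.exp (-(t / a i)) else Real.exp (-(t / a i)) := by
    intro i
    have hu : 0 < t / a i := div_pos ht (ha i)
    split_ifs
    · exact prob_ge P X h i _ hu
    · exact prob_lt P X h i _ hu
  rw [Finset.prod_congr rfl fun i _ => e i, Pool.Agent.W890.SF.Wt, Finset.prod_ite]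
  congr 1
  · apply Finset.prod_congr _ fun i _ => rfl
    ext i
    simp
  · apply Finset.prod_congr _ fun i _ => by ring
    ext i
    simp

lemma key {Ω : Type} [MeasurableSpace Ω] (P : Measure Ω) [IsProbabilityMeasure P] {m : ℕ}
    (hm : 1 ≤ m) (X : Fin m → Ω → ℝ) (h : IIDExp P X) (a : Fin m → ℝ) (ha : ∀ i, 0 < a i) (t : ℝ)
    (ht : 0 < t) :
    Pool.Agent.W890.SF.PU (fun i => a i / m) (fun i => 1 - Real.exp (-(t / a i))) 1 univ ≤
      P.real {ω | (m : ℝ) ≤ ∑ i, if a i * X i ω < t then a i else 0}ᶜ := by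
  have hm0 : (0 : ℝ) < m := by exact_mod_cast hm
  unfold Pool.Agent.W890.SF.PU
  set B : Finset (Fin m) → Set Ω := fun T => ⋂ i ∈ (univ : Finset (Fin m)), X i ⁻¹'
    (if i ∈ T then Set.Iio (t / a i) else Set.Ici (t / a i)) with hB
  have hmem : ∀ T ω, ω ∈ B T ↔ ∀ i, (i ∈ T ↔ a i * X i ω < t) := by
    intro T ω
    simp only [hB, Set.mem_iInter, Finset.mem_univ, true_implies, Set.mem_preimage]
    refine forall_congr' fun i => ?_
    have e : X i ω < t / a i ↔ a i * X i ω < t := by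
      rw [lt_div_iff₀ (ha i), mul_comm]
    by_cases hi : i ∈ T
    · simp only [hi, if_true, true_iff, Set.mem_Iio]
      exact e
    · simp only [hi, if_false, false_iff, Set.mem_Ici, ← not_lt]
      rw [e]
  have hmeas : ∀ T, MeasurableSet (B T) := by
    intro T
    refine Finset.measurableSet_biInter _ fun i _ => h.meas i ?_
    split_ifs
    · exact measurableSet_Iio
    · exact measurableSet_Ici
  rw [← Finset.sum_filter]
  have e1 : ∀ T, Pool.Agent.W890.SF.Wt (fun i => 1 - Real.exp (-(t / a i))) univ T =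
      P.real (B T) := fun T => (prob_box P X h a ha t ht T).symm
  rw [Finset.sum_congr rfl fun T _ => e1 T]
  rw [← measureReal_biUnion_finset (fun T _ T' _ hTT' => ?_) (fun T _ => hmeas T)]
  · refine measureReal_mono ?_ (measure_ne_top _ _)
    intro ω hω
    rw [Set.mem_iUnion₂] at hω
    obtain ⟨T, hT, hω⟩ := hω
    rw [hmem] at hω
    rw [Finset.mem_filter] at hT
    rw [Set.mem_compl_iff, Set.mem_ofPred_eq, not_le]
    have e2 : (∑ i, if a i * X i ω < t then a i else 0) = ∑ i ∈ T, a i := by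
      rw [← Finset.sum_filter]
      apply Finset.sum_congr _ fun i _ => rfl
      ext i
      simp [hω i]
    rw [e2]
    have h3 := hT.2
    rw [← Finset.sum_div, div_lt_one hm0] at h3
    exact h3
  · change Disjoint (B T) (B T')
    rw [Set.disjoint_left]
    intro ω h1 h2
    rw [hmem] at h1 h2
    apply hTT'
    ext i
    rw [h1 i, h2 i]

/-- For all real requests. -/
theorem main {Ω : Type} [MeasurableSpace Ω] (P : Measure Ω) [IsProbabilityMeasure P] {m : ℕ}
    (hm : 1 ≤ m) (X : Fin m → Ω → ℝ) (h : IIDExp P X) (a : Fin m → ℝ) (ha : ∀ i, 0 < a i) (t : ℝ)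
    (ht : 0 < t) (ht1 : t ≤ 1) : Phi P X a t ≤ 1 - Real.exp (-t) := by
  have h1 := (Pool.Agent.R736.LOT.bound hm a ha t ht ht1).trans (key P hm X h a ha t ht)
  have h2 : P.real {ω | (m : ℝ) ≤ ∑ i, if a i * X i ω < t then a i else 0} +
      P.real {ω | (m : ℝ) ≤ ∑ i, if a i * X i ω < t then a i else 0}ᶜ = 1 := by
    apply probReal_add_probReal_compl
    apply measurableSet_le measurable_const
    refine Finset.measurable_sum _ fun i _ => ?_
    refine Measurable.ite ?_ measurable_const measurable_const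
    exact measurableSet_lt ((h.meas i).const_mul _) measurable_const
  unfold Phi
  linarith

/-- Q1 holds: for all `k ≥ m ≥ 1`, `t ∈ (0,1]` and `a ∈ {1..k}^m`, `Phi_t(a) ≤ 1 - e^(-t)`;
and the inequality holds for all positive real requests. -/
theorem result :
    (∀ (k m : ℕ), 1 ≤ m → m ≤ k → ∀ t : ℝ, 0 < t → t ≤ 1 →
      ∀ (Ω : Type) [MeasurableSpace Ω] (P : Measure Ω) [IsProbabilityMeasure P]
        (X : Fin m → Ω → ℝ), IIDExp P X →
        ∀ a : Fin m → ℕ, (∀ i, 1 ≤ a i ∧ a i ≤ k) →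
          Phi P X (fun i => (a i : ℝ)) t ≤ 1 - Real.exp (-t)) ∧
    (∀ (m : ℕ), 1 ≤ m → ∀ t : ℝ, 0 < t → t ≤ 1 →
      ∀ (Ω : Type) [MeasurableSpace Ω] (P : Measure Ω) [IsProbabilityMeasure P]
        (X : Fin m → Ω → ℝ), IIDExp P X →
        ∀ a : Fin m → ℝ, (∀ i, 0 < a i) → Phi P X a t ≤ 1 - Real.exp (-t)) := by
  refine ⟨?_, ?_⟩
  · intro k m hm _ t ht ht1 Ω _ P _ X h a ha
    exact main P hm X h _ (fun i => by exact_mod_cast (ha i).1) t ht ht1
  · intro m hm t ht ht1 Ω _ P _ X h a ha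
    exact main P hm X h a ha t ht ht1

end Pool.Agent.Results.MP_9c491c_pr.GroupRequestOptimal
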